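import Mathlib
import Pool.Agent.Helper26.AF.Defs
import Pool.Agent.Helper26.AF.Goals2

/-!
Project AF (MP_af6c86_pr), packet KGL: lower bound for the number of good cores.
-/

namespace Pool.Agent.Helper70.AF

open Finset Pool.Agent.Helper26.AF

/-- The product estimate replacing the divergence of the harmonic series. -/
lemma prod_sq (r N : ℕ) (hr : 1 ≤ r) :
    (∏ i ∈ range N, (6 * r + 2 * i - 1)) ^ 2 * (6 * r + 2 * N - 1) ≤
      (∏ i ∈ range N, (6 * r + 2 * i)) ^ 2 * (6 * r - 1) := by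
  induction N with
  | zero => simp
  | succ N ih =>
    rw [prod_range_succ, prod_range_succ]
    set A := ∏ i ∈ range N, (6 * r + 2 * i - 1)
    set B := ∏ i ∈ range N, (6 * r + 2 * i)
    obtain ⟨a, ha⟩ : ∃ a, 6 * r + 2 * N = a + 1 := ⟨6 * r + 2 * N - 1, by omega⟩
    have h1 : 6 * r + 2 * N - 1 = a := by omega
    have h2 : 6 * r + 2 * (N + 1) - 1 = a + 2 := by omega
    rw [h1, h2, ha]
    rw [h1] at ih
    calc (A * a) ^ 2 * (a + 2) = A ^ 2 * a * (a * (a + 2)) := by ring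
      _ ≤ B ^ 2 * (6 * r - 1) * ((a + 1) ^ 2) := by
          apply Nat.mul_le_mul ih
          nlinarith
      _ = (B * (a + 1)) ^ 2 * (6 * r - 1) := by ring

lemma prod_big (r N : ℕ) (hr : 1 ≤ r) (hN : (24 * r) ^ 2 * (6 * r) ≤ N) :
    24 * r * ∏ i ∈ range N, (6 * r + 2 * i - 1) ≤ ∏ i ∈ range N, (6 * r + 2 * i) := by
  have h := prod_sq r N hr
  set A := ∏ i ∈ range N, (6 * r + 2 * i - 1)
  set B := ∏ i ∈ range N, (6 * r + 2 * i)
  have h1 : (24 * r) ^ 2 * (6 * r - 1) ≤ 6 * r + 2 * N - 1 := by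
    calc (24 * r) ^ 2 * (6 * r - 1) ≤ (24 * r) ^ 2 * (6 * r) := Nat.mul_le_mul_left _ (by omega)
      _ ≤ N := hN
      _ ≤ _ := by omega
  have h2 : (24 * r * A) ^ 2 * (6 * r - 1) ≤ B ^ 2 * (6 * r - 1) := by
    calc (24 * r * A) ^ 2 * (6 * r - 1) = A ^ 2 * ((24 * r) ^ 2 * (6 * r - 1)) := by ring
      _ ≤ A ^ 2 * (6 * r + 2 * N - 1) := Nat.mul_le_mul_left _ h1
      _ ≤ _ := h
  have h3 : (24 * r * A) ^ 2 ≤ B ^ 2 := Nat.le_of_mul_le_mul_right h2 (by omega)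
  exact (Nat.pow_le_pow_iff_left (by norm_num)).1 h3

lemma prod_fact (r N : ℕ) (hr : 1 ≤ r) :
    (∏ i ∈ range N, (6 * r + 2 * i)) * (3 * r - 1).factorial = 2 ^ N * (2 * r + N + r - 1).factorial := by
  induction N with
  | zero =>
    have h : 2 * r + 0 + r - 1 = 3 * r - 1 := by omega
    rw [h]
    simp
  | succ N ih =>
    rw [prod_range_succ]
    have h : 2 * r + (N + 1) + r - 1 = (2 * r + N + r - 1) + 1 := by omega
    rw [h, Nat.factorial_succ]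
    have h2 : 6 * r + 2 * N = 2 * (2 * r + N + r - 1 + 1) := by omega
    calc (∏ i ∈ range N, (6 * r + 2 * i)) * (6 * r + 2 * N) * (3 * r - 1).factorial
        = (∏ i ∈ range N, (6 * r + 2 * i)) * (3 * r - 1).factorial * (6 * r + 2 * N) := by ring
      _ = 2 ^ N * (2 * r + N + r - 1).factorial * (2 * (2 * r + N + r - 1 + 1)) := by rw [ih, h2]
      _ = _ := by ring

/-- Closed sets contain a dart of `X`. -/
lemma closed_dart {r N : ℕ} (τ : Equiv.Perm (KX r ⊕ Fin N × Bool)) (hn : NoPure τ)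
    (P : KX r ⊕ Fin N × Bool → Prop) (h1 : ∀ h, P h → P (τ h))
    (h2 : ∀ h h', vt h = vt h' → P h → P h') (h3 : ∃ h, P h) : ∃ x, P (Sum.inl x) := by
  obtain ⟨h, hh⟩ := h3
  rcases h with x | ⟨w, b⟩
  · exact ⟨x, hh⟩
  · obtain ⟨w, hw, b, hb⟩ := hn {w | ∀ b, P (Sum.inr (w, b))} ⟨w, fun b' => h2 (Sum.inr (w, b)) (Sum.inr (w, b')) rfl hh⟩
    have h4 := h1 _ (hw b)
    rcases e : τ (Sum.inr (w, b)) with x | ⟨w', b'⟩
    · rw [e] at h4; exact ⟨x, h4⟩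
    · exfalso
      rw [e] at h4
      exact hb w' (fun b'' => h2 (Sum.inr (w', b')) (Sum.inr (w', b'')) rfl h4) b' e

lemma all_closed {r N : ℕ} (τ : Equiv.Perm (KX r ⊕ Fin N × Bool)) (hp : IsPair τ) (hn : NoPure τ)
    (κ : Equiv.Perm (KX r)) (hκ : KConn κ)
    (hP : ∀ P : KX r ⊕ Fin N × Bool → Prop, (∀ h, P h → P (τ h)) →
      (∀ h, P h → P (sW (KX r) (Fin N) h)) → ∀ x, P (Sum.inl x) → P (Sum.inl (κ x)))
    (P : KX r ⊕ Fin N × Bool → Prop) (h1 : ∀ h, P h → P (τ h))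
    (h2 : ∀ h h', vt h = vt h' → P h → P h') (h3 : ∃ h, P h) : ∀ h, P h := by
  have hs : ∀ h : KX r ⊕ Fin N × Bool, vt h = vt (sW (KX r) (Fin N) h) := by
    intro h
    rcases h with x | ⟨w, b⟩ <;> rfl
  have h4 : ∀ x, P (Sum.inl x) := by
    apply hκ (fun x => P (Sum.inl x)) (hP P h1 (fun h hh => h2 _ _ (hs h) hh))
    · intro x y hxy hx
      exact h2 _ _ (by simp [vt, hxy]) hx
    · exact closed_dart τ hn P h1 h2 h3
  by_contra hc
  push Not at hc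
  obtain ⟨x, hx⟩ := closed_dart τ hn (fun h => ¬ P h)
    (fun h hh hh' => hh (by have := h1 _ hh'; rwa [(hp h).1] at this))
    (fun h h' he hh hh' => hh (h2 _ _ he.symm hh')) hc
  exact hx (h4 x)

theorem goalKGL (hSUB : Pool.Agent.Helper26.AF.StmtSUB) (hKER : Pool.Agent.Helper26.AF.StmtKER)
    (hGRF : Pool.Agent.Helper26.AF.StmtGRF) (hTRS : Pool.Agent.Helper26.AF.StmtTRS) :
    Pool.Agent.Helper26.AF.StmtKGL := by
  intro η hη
  obtain ⟨r₀, hr₀⟩ := hKER η hη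
  refine ⟨max r₀ 1, fun r hr => ?_⟩
  have hr1 : 1 ≤ r := le_trans (le_max_right _ _) hr
  have hker := hr₀ r (le_trans (le_max_left _ _) hr)
  refine ⟨2 * r + (24 * r) ^ 2 * (6 * r), fun s hs => ?_⟩
  obtain ⟨N, rfl⟩ : ∃ N, s = 2 * r + N := ⟨s - 2 * r, by omega⟩
  have hN : (24 * r) ^ 2 * (6 * r) ≤ N := by omega
  have : Nonempty (KX r) := ⟨(⟨0, by omega⟩, 0)⟩
  have hcard : Fintype.card (KX r) = 6 * r := by
    simp [KX]; ring
  obtain ⟨S, hS1, hS2, hS3⟩ := hSUB (KX r) (fun κ => IsPair κ ∧ KConn κ ∧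
    ∀ σ, RotX σ → (orb (σ * κ) : ℝ) ≤ η * r) (fun κ h => h.1) N
  rw [hcard] at hS1 hS2
  set k := Nat.card {κ : Equiv.Perm (KX r) // IsPair κ ∧ KConn κ ∧
    ∀ σ, RotX σ → (orb (σ * κ) : ℝ) ≤ η * r} with hk
  set A := ∏ i ∈ range N, (6 * r + 2 * i - 1) with hA
  set B := ∏ i ∈ range N, (6 * r + 2 * i) with hB
  -- the non-short elements
  have hsplit : Nat.card S = Nat.card {τ : Equiv.Perm (KX r ⊕ Fin N × Bool) // τ ∈ S ∧ Short τ} +
      Nat.card ({τ | τ ∈ S ∧ ¬ Short τ} : Set (Equiv.Perm (KX r ⊕ Fin N × Bool))) := by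
    classical
    have e : S = {τ | τ ∈ S ∧ Short τ} ∪ {τ | τ ∈ S ∧ ¬ Short τ} := by
      ext τ; by_cases h : Short τ <;> simp [h]
    have h := Set.ncard_union_eq (s := {τ | τ ∈ S ∧ Short τ}) (t := {τ | τ ∈ S ∧ ¬ Short τ})
      (by rw [Set.disjoint_left]; rintro τ ⟨_, h1⟩ ⟨_, h2⟩; exact h2 h1)
      (Set.toFinite _) (Set.toFinite _)
    rw [← e] at h
    rw [← Nat.card_coe_set_eq, ← Nat.card_coe_set_eq, ← Nat.card_coe_set_eq] at h
    exact h
  have hgood := hGRF r N ⌊η * r⌋₊ {τ | τ ∈ S ∧ ¬ Short τ} (by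
    rintro τ ⟨hτ, hns⟩
    obtain ⟨hp, hn, κ, ⟨hκ1, hκ2, hκ3⟩, ho, hP⟩ := hS3 τ hτ
    refine ⟨hp, hn, hns, ?_, ?_⟩
    · intro σ hσ
      rw [ho σ]
      exact Nat.le_floor (hκ3 σ hσ)
    · intro P h1 h2 h3
      exact all_closed τ hp hn κ hκ2 hP P h1 h2 h3)
  have htrs := hTRS r N ⌊η * r⌋₊
  set g := Nat.card {Γ : SimpleGraph (Fin (2 * r) ⊕ Fin N) //
    Γ.Connected ∧ (∀ v, dg Γ (Sum.inl v) = 3) ∧ (∀ w, dg Γ (Sum.inr w) = 2) ∧
    ∀ σ, IsRot Γ σ → orb (σ * rev Γ) ≤ ⌊η * r⌋₊} with hg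
  set T := Nat.card {Γ : SimpleGraph (Fin (2 * r + N)) // TT r ⌊η * r⌋₊ (2 * r + N) Γ} with hT
  have hbig := prod_big r N hr1 hN
  rw [← hA, ← hB] at hbig
  have h1 : k * B ≤ 2 * (6 ^ (2 * r) * 2 ^ N * g) := by
    have e1 : 2 * (2 * (6 * r) * k * A) ≤ k * B := by
      calc 2 * (2 * (6 * r) * k * A) = k * (24 * r * A) := by ring
        _ ≤ k * B := Nat.mul_le_mul_left _ hbig
    omega
  have h2 : Nat.doubleFactorial (6 * r - 1) * B ≤ 4 * (6 ^ (2 * r) * 2 ^ N * g) := by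
    calc Nat.doubleFactorial (6 * r - 1) * B ≤ (2 * k) * B := Nat.mul_le_mul_right _ hker
      _ = 2 * (k * B) := by ring
      _ ≤ 2 * (2 * (6 ^ (2 * r) * 2 ^ N * g)) := Nat.mul_le_mul_left _ h1
      _ = _ := by ring
  have h3 : (2 * r + N).choose (2 * r) * (Nat.doubleFactorial (6 * r - 1) * B) ≤
      4 * (6 ^ (2 * r) * 2 ^ N) * T := by
    calc (2 * r + N).choose (2 * r) * (Nat.doubleFactorial (6 * r - 1) * B)
        ≤ (2 * r + N).choose (2 * r) * (4 * (6 ^ (2 * r) * 2 ^ N * g)) := Nat.mul_le_mul_left _ h2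
      _ = 4 * (6 ^ (2 * r) * 2 ^ N) * ((2 * r + N).choose (2 * r) * g) := by ring
      _ ≤ _ := Nat.mul_le_mul_left _ htrs
  have hfac := prod_fact r N hr1
  rw [← hB] at hfac
  have hch : (2 * r + N).choose (2 * r) * (2 * r).factorial * N.factorial = (2 * r + N).factorial := by
    have := Nat.choose_mul_factorial_mul_factorial (n := 2 * r + N) (k := 2 * r) (by omega)
    simpa using this
  have hsub : 2 * r + N - 2 * r = N := by omega
  rw [hsub]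
  have h36 : (6 : ℝ) ^ (2 * r) = 36 ^ r := by rw [pow_mul]; norm_num
  have h3' : ((2 * r + N).choose (2 * r) : ℝ) * ((Nat.doubleFactorial (6 * r - 1) : ℝ) * (B : ℝ)) ≤
      4 * (36 ^ r * 2 ^ N) * (T : ℝ) := by
    have : (((2 * r + N).choose (2 * r) * (Nat.doubleFactorial (6 * r - 1) * B) : ℕ) : ℝ) ≤
      ((4 * (6 ^ (2 * r) * 2 ^ N) * T : ℕ) : ℝ) := by exact_mod_cast h3
    push_cast at this
    rw [h36] at this
    exact this
  have hfac' : (B : ℝ) * ((3 * r - 1).factorial : ℝ) = 2 ^ N * ((2 * r + N + r - 1).factorial : ℝ) := by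
    exact_mod_cast hfac
  have hch' : ((2 * r + N).choose (2 * r) : ℝ) * ((2 * r).factorial : ℝ) * (N.factorial : ℝ) =
      ((2 * r + N).factorial : ℝ) := by exact_mod_cast hch
  have p1 : (0 : ℝ) < ((3 * r - 1).factorial : ℝ) := by exact_mod_cast Nat.factorial_pos _
  have p2 : (0 : ℝ) < ((2 * r).factorial : ℝ) := by exact_mod_cast Nat.factorial_pos _
  have p3 : (0 : ℝ) < (N.factorial : ℝ) := by exact_mod_cast Nat.factorial_pos _
  have p4 : (0 : ℝ) < (36 : ℝ) ^ r := by positivity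
  have p5 : (0 : ℝ) < (2 : ℝ) ^ N := by positivity
  have e1 : ((2 * r + N + r - 1).factorial : ℝ) = (B : ℝ) * ((3 * r - 1).factorial : ℝ) / 2 ^ N := by
    field_simp
    linarith
  rw [← hch', e1, ee]
  have e2 : (Nat.doubleFactorial (6 * r - 1) : ℝ) / (((2 * r).factorial : ℝ) * 36 ^ r) / 4 *
      (((2 * r + N).choose (2 * r) : ℝ) * ((2 * r).factorial : ℝ) * (N.factorial : ℝ)) *
      ((B : ℝ) * ((3 * r - 1).factorial : ℝ) / 2 ^ N / ((N.factorial : ℝ) * ((3 * r - 1).factorial : ℝ)))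
      = (((2 * r + N).choose (2 * r) : ℝ) * ((Nat.doubleFactorial (6 * r - 1) : ℝ) * (B : ℝ))) /
        (4 * (36 ^ r * 2 ^ N)) := by
    field_simp
  rw [e2, div_le_iff₀ (by positivity)]
  linarith

end Pool.Agent.Helper70.AF
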